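import Mathlib

set_option autoImplicit false

namespace Pool.Agent.Results.MP_9f71e8_nt.LargestNonRepresentable

/-- `n` is representable: `n = p_1 ^ α_1 + ⋯ + p_L ^ α_L` for some `L ≥ 1` and exponents
`α_j ≥ 1`, where `p_1 < p_2 < ⋯` are the primes in increasing order
(`Nat.nth Nat.Prime j` is the prime with index `j` counted from `0`). -/
def Representable (n : ℕ) : Prop :=
  ∃ L : ℕ, 1 ≤ L ∧ ∃ α : ℕ → ℕ, (∀ j < L, 1 ≤ α j) ∧
    n = ∑ j ∈ Finset.range L, (Nat.nth Nat.Prime j) ^ (α j)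

/-- the sum of the first `L` primes -/
noncomputable def S (L : ℕ) : ℕ := ∑ j ∈ Finset.range L, Nat.nth Nat.Prime j

/-- `S L + 2 t` is a sum of positive powers of the first `L` primes -/
def Cov (L t : ℕ) : Prop :=
  ∃ α : ℕ → ℕ, (∀ j, 1 ≤ α j) ∧
    ∑ j ∈ Finset.range L, (Nat.nth Nat.Prime j) ^ (α j) = S L + 2 * t

theorem S_succ (L : ℕ) : S (L + 1) = S L + Nat.nth Nat.Prime L := by
  unfold S
  rw [Finset.sum_range_succ]

theorem cov_rep {L t : ℕ} (hL : 1 ≤ L) (h : Cov L t) : Representable (S L + 2 * t) := by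
  obtain ⟨α, h1, h2⟩ := h
  exact ⟨L, hL, α, fun j _ => h1 j, h2.symm⟩

theorem cov_zero : Cov 0 0 := ⟨fun _ => 1, fun _ => le_rfl, by simp [S]⟩

theorem pow_eq (p i : ℕ) (hp : 1 ≤ p) : p ^ (i + 1) = p + 2 * ((p ^ (i + 1) - p) / 2) := by
  have h1 : p ≤ p ^ (i + 1) := by
    calc p = p ^ 1 := (pow_one p).symm
      _ ≤ p ^ (i + 1) := Nat.pow_le_pow_right hp (by omega)
  have h2 : Even (p ^ (i + 1) - p) := by
    rw [Nat.even_sub h1, Nat.even_pow]
    simp
  obtain ⟨c, hc⟩ := h2
  omega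

/-- one more prime, with exponent `i + 1` -/
theorem cov_add {L t : ℕ} (h : Cov L t) (i : ℕ) :
    Cov (L + 1) (t + ((Nat.nth Nat.Prime L) ^ (i + 1) - Nat.nth Nat.Prime L) / 2) := by
  obtain ⟨α, h1, h2⟩ := h
  refine ⟨Function.update α L (i + 1), ?_, ?_⟩
  · intro j
    by_cases hj : j = L
    · subst hj; simp
    · rw [Function.update_of_ne hj]; exact h1 j
  · rw [Finset.sum_range_succ, S_succ, Function.update_self]
    have h3 : ∑ x ∈ Finset.range L, Nat.nth Nat.Prime x ^ Function.update α L (i + 1) x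
        = ∑ x ∈ Finset.range L, Nat.nth Nat.Prime x ^ α x := by
      refine Finset.sum_congr rfl fun x hx => ?_
      rw [Function.update_of_ne (Finset.mem_range.1 hx).ne]
    rw [h3, h2]
    have := pow_eq (Nat.nth Nat.Prime L) i (Nat.prime_nth_prime L).one_le
    omega

theorem cov_one {L t : ℕ} (h : Cov L t) : Cov (L + 1) t := by
  have := cov_add h 0
  simpa using this

/-! ### A bit mask computation -/

/-- the increments `(p ^ i - p) / 2` for `i = 1, …, K` -/
def incs (p K : ℕ) : List ℕ := (List.range K).map (fun i => (p ^ (i + 1) - p) / 2)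

/-- the union of the shifts of the bit mask `m` -/
def shifts (m : ℕ) : List ℕ → ℕ
  | [] => 0
  | s :: l => (m <<< s) ||| shifts m l

/-- bit mask (up to `B` bits) of the numbers `t` such that `S L + 2 t` is a sum of powers -/
def mask (B : ℕ) : List (ℕ × ℕ) → ℕ
  | [] => 1
  | (p, K) :: l => shifts (mask B l) (incs p K) % 2 ^ B

/-- the list consists of the first primes, in decreasing order, with arbitrary bounds `K` -/
def Good : List (ℕ × ℕ) → Prop
  | [] => True
  | (p, _) :: l => Nat.nth Nat.Prime l.length = p ∧ Good l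

theorem shifts_sound (m : ℕ) : ∀ (l : List ℕ) (t : ℕ), (shifts m l).testBit t = true →
    ∃ s ∈ l, s ≤ t ∧ m.testBit (t - s) = true
  | [], t, h => by simp [shifts] at h
  | s :: l, t, h => by
    rw [shifts, Nat.testBit_or, Bool.or_eq_true, Nat.testBit_shiftLeft, Bool.and_eq_true] at h
    rcases h with ⟨h1, h2⟩ | h
    · exact ⟨s, by simp, by simpa using h1, h2⟩
    · obtain ⟨s', hs', h3⟩ := shifts_sound m l t h
      exact ⟨s', List.mem_cons_of_mem _ hs', h3⟩

theorem mask_sound (B : ℕ) : ∀ (l : List (ℕ × ℕ)), Good l → ∀ t : ℕ,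
    (mask B l).testBit t = true → Cov l.length t
  | [], _, t, h => by
    have : t = 0 := by
      by_contra hne
      have h1 : Nat.testBit 1 t = false := by
        rcases t with _ | t
        · exact absurd rfl hne
        · simp [Nat.testBit_succ]
      rw [mask, h1] at h
      exact Bool.false_ne_true h
    subst this
    exact cov_zero
  | (p, K) :: l, hg, t, h => by
    rw [mask, Nat.testBit_mod_two_pow, Bool.and_eq_true] at h
    obtain ⟨s, hs, hst, h2⟩ := shifts_sound _ _ _ h.2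
    unfold incs at hs
    rw [List.mem_map] at hs
    obtain ⟨i, -, rfl⟩ := hs
    have h3 := mask_sound B l hg.2 _ h2
    have h4 := cov_add h3 i
    rw [hg.1] at h4
    rw [List.length_cons]
    rwa [Nat.sub_add_cancel hst] at h4

theorem nth5 : Nat.nth Nat.Prime 5 = 13 := Nat.nth_count (p := Nat.Prime) (n := 13) (by norm_num)
theorem nth6 : Nat.nth Nat.Prime 6 = 17 := Nat.nth_count (p := Nat.Prime) (n := 17) (by norm_num)
theorem nth7 : Nat.nth Nat.Prime 7 = 19 := Nat.nth_count (p := Nat.Prime) (n := 19) (by norm_num)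
theorem nth8 : Nat.nth Nat.Prime 8 = 23 := Nat.nth_count (p := Nat.Prime) (n := 23) (by norm_num)
theorem nth9 : Nat.nth Nat.Prime 9 = 29 := Nat.nth_count (p := Nat.Prime) (n := 29) (by norm_num)
theorem nth10 : Nat.nth Nat.Prime 10 = 31 := Nat.nth_count (p := Nat.Prime) (n := 31) (by norm_num)

def l1 : List (ℕ × ℕ) := [(2, 23)]
def l2 : List (ℕ × ℕ) := (3, 15) :: l1
def l3 : List (ℕ × ℕ) := (5, 10) :: l2
def l4 : List (ℕ × ℕ) := (7, 8) :: l3
def l5 : List (ℕ × ℕ) := (11, 6) :: l4
def l6 : List (ℕ × ℕ) := (13, 6) :: l5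
def l7 : List (ℕ × ℕ) := (17, 5) :: l6
def l8 : List (ℕ × ℕ) := (19, 5) :: l7
def l9 : List (ℕ × ℕ) := (23, 5) :: l8
def l10 : List (ℕ × ℕ) := (29, 4) :: l9

theorem good1 : Good l1 := ⟨Nat.nth_prime_zero_eq_two, trivial⟩
theorem good2 : Good l2 := ⟨Nat.nth_prime_one_eq_three, good1⟩
theorem good3 : Good l3 := ⟨Nat.nth_prime_two_eq_five, good2⟩
theorem good4 : Good l4 := ⟨Nat.nth_prime_three_eq_seven, good3⟩
theorem good5 : Good l5 := ⟨Nat.nth_prime_four_eq_eleven, good4⟩
theorem good6 : Good l6 := ⟨nth5, good5⟩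
theorem good7 : Good l7 := ⟨nth6, good6⟩
theorem good8 : Good l8 := ⟨nth7, good7⟩
theorem good9 : Good l9 := ⟨nth8, good8⟩
theorem good10 : Good l10 := ⟨nth9, good9⟩

theorem base (B N a : ℕ) (l : List (ℕ × ℕ)) (hg : Good l)
    (h : (mask B l >>> a) % 2 ^ N = 2 ^ N - 1) (t : ℕ) (h1 : a ≤ t) (h2 : t < a + N) :
    Cov l.length t := by
  refine mask_sound B l hg t ?_
  have h4 : ((mask B l >>> a) % 2 ^ N).testBit (t - a) = true := by
    rw [h, Nat.testBit_two_pow_sub_one]
    simpa using by omega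
  rw [Nat.testBit_mod_two_pow, Bool.and_eq_true, Nat.testBit_shiftRight] at h4
  have h5 : a + (t - a) = t := by omega
  rw [h5] at h4
  exact h4.2

theorem big_mask : (mask 5300100 l10 >>> 58) % 2 ^ 5300000 = 2 ^ 5300000 - 1 := by
  decide +kernel

theorem len10 : l10.length = 10 := rfl

theorem cov10 (t : ℕ) (h1 : 58 ≤ t) (h2 : t < 58 + 5300000) : Cov 10 t := by
  have h3 : Cov l10.length t := base _ _ _ l10 good10 big_mask t h1 h2
  rwa [len10] at h3

/-! ### The induction on the number of primes -/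

/-- guaranteed length of the run -/
def R (L : ℕ) : ℕ := 5200000 + (L + 2).choose 3

theorem R_succ (L : ℕ) : R (L + 1) = R L + (L + 2).choose 2 := by
  unfold R
  have : (L + 1 + 2).choose 3 = (L + 2).choose 2 + (L + 2).choose 3 := Nat.choose_succ_succ' _ _
  omega

/-- a Chebyshev type lower bound for the prime counting function -/
theorem cheb (n : ℕ) : n ≤ (Nat.log 2 n + 1) * (Nat.primeCounting n + 1) := by
  rcases Nat.eq_zero_or_pos n with h0 | hn
  · subst h0; simp
  have h1 := Chebyshev.two_pow_le_mul_lcmUpto n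
  have h2 : Nat.lcmUpto n ≤ n ^ (Nat.primeCounting n) := by
    rw [Nat.lcmUpto_eq_prod_pow_log, ← Nat.primesLE_card_eq_primeCounting]
    refine Finset.prod_le_pow_card _ _ _ fun p hp => ?_
    exact Nat.pow_log_le_self p hn.ne'
  have h3 : n + 1 ≤ 2 ^ (Nat.log 2 n + 1) := Nat.lt_pow_succ_log_self (by norm_num) n
  have h4 : 2 ^ n ≤ 2 ^ ((Nat.log 2 n + 1) * (Nat.primeCounting n + 1)) := by
    calc 2 ^ n ≤ (n + 1) * Nat.lcmUpto n := h1
      _ ≤ (n + 1) * n ^ (Nat.primeCounting n) := Nat.mul_le_mul_left _ h2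
      _ ≤ 2 ^ (Nat.log 2 n + 1) * (2 ^ (Nat.log 2 n + 1)) ^ (Nat.primeCounting n) :=
        Nat.mul_le_mul h3 (Nat.pow_le_pow_left (by omega) _)
      _ = 2 ^ ((Nat.log 2 n + 1) * (Nat.primeCounting n + 1)) := by
        rw [← pow_mul, ← pow_add]; ring_nf
  exact (Nat.pow_le_pow_iff_right (by norm_num)).1 h4

theorem pi_nth (L : ℕ) : Nat.primeCounting (Nat.nth Nat.Prime L) = L + 1 := by
  rw [Nat.primeCounting_eq_primeCounting'_succ, Nat.primeCounting', Nat.count_succ]
  have h1 : Nat.count Nat.Prime (Nat.nth Nat.Prime L) = L := Nat.primeCounting'_nth_eq L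
  rw [h1, if_pos (Nat.prime_nth_prime L)]

theorem six_choose (m : ℕ) : 6 * (m + 2).choose 3 = (m + 2) * (m + 1) * m := by
  induction m with
  | zero => simp
  | succ m ih =>
    have h1 : (m + 1 + 2).choose 3 = (m + 2).choose 2 + (m + 2).choose 3 :=
      Nat.choose_succ_succ' _ _
    have h2 : 2 * (m + 2).choose 2 = (m + 2) * (m + 1) := by
      have := Nat.choose_two_right (m + 2)
      have h3 : 2 ∣ (m + 2) * (m + 2 - 1) := (Nat.even_mul_pred_self (m + 2)).two_dvd
      rw [this, Nat.mul_div_cancel' h3]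
      congr 1
    rw [h1, mul_add, ih]
    have h4 : 6 * (m + 2).choose 2 = 3 * ((m + 2) * (m + 1)) := by rw [← h2]; ring
    rw [h4]; ring

theorem pow_bound : ∀ k : ℕ, 14 ≤ k → 4 * (k + 1) ^ 3 ≤ 2 ^ k := by
  intro k hk
  induction k, hk using Nat.le_induction with
  | base => norm_num
  | succ k hk ih =>
    rw [pow_succ 2 k]
    nlinarith [ih, hk, mul_self_nonneg (k - 14 : ℤ)]

/-- the step condition -/
theorem prime_bound (L : ℕ) :
    Nat.nth Nat.Prime L * (Nat.nth Nat.Prime L - 1) / 2 ≤ R L := by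
  set p := Nat.nth Nat.Prime L with hp
  have h1 := cheb p
  rw [hp, pi_nth, ← hp] at h1
  set k := Nat.log 2 p with hk
  have hp2 : 2 ≤ p := (Nat.prime_nth_prime L).two_le
  have h2 : 2 ^ k ≤ p := Nat.pow_log_le_self 2 (by omega)
  have h6 := six_choose L
  have h7 : p * (p - 1) ≤ p * p := Nat.mul_le_mul_left _ (by omega)
  rcases Nat.lt_or_ge k 14 with hk' | hk'
  · have h3 : p ≤ 14 * (L + 2) := by
      calc p ≤ (k + 1) * (L + 1 + 1) := h1
        _ ≤ 14 * (L + 2) := Nat.mul_le_mul (by omega) (by omega)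
    have h4 : p * p ≤ 196 * ((L + 2) * (L + 2)) := by nlinarith
    have h5 : 591 * ((L + 2) * (L + 2)) ≤ (L + 2) * (L + 1) * L + 31200000 := by
      zify
      nlinarith [mul_nonneg (sq_nonneg ((L : ℤ) + 2 - 394)) (by positivity : (0 : ℤ) ≤ L + 2 + 197)]
    have : 3 * (p * p) ≤ 6 * R L := by
      unfold R
      omega
    omega
  · have h3 := pow_bound k hk'
    have h4 : 4 * (k + 1) ^ 2 ≤ L + 2 := by
      have : (k + 1) * (4 * (k + 1) ^ 2) ≤ (k + 1) * (L + 2) := by
        calc (k + 1) * (4 * (k + 1) ^ 2) = 4 * (k + 1) ^ 3 := by ring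
          _ ≤ 2 ^ k := h3
          _ ≤ p := h2
          _ ≤ (k + 1) * (L + 2) := h1
      exact Nat.le_of_mul_le_mul_left this (by omega)
    have h5 : 4 * (p * p) ≤ (L + 2) * ((L + 2) * (L + 2)) := by
      calc 4 * (p * p) ≤ 4 * (((k + 1) * (L + 2)) * ((k + 1) * (L + 2))) :=
            Nat.mul_le_mul_left _ (Nat.mul_le_mul h1 h1)
        _ = (4 * (k + 1) ^ 2) * ((L + 2) * (L + 2)) := by ring
        _ ≤ (L + 2) * ((L + 2) * (L + 2)) := Nat.mul_le_mul_right _ h4
    have h8 : 3 * ((L + 2) * ((L + 2) * (L + 2))) ≤ 4 * ((L + 2) * (L + 1) * L) := by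
      have h9 : 900 ≤ L + 2 := by nlinarith
      obtain ⟨m, rfl⟩ : ∃ m, L = m + 898 := ⟨L - 898, by omega⟩
      nlinarith
    have : 3 * (p * p) ≤ 6 * R L := by
      unfold R
      omega
    omega

theorem cov_run : ∀ L : ℕ, 10 ≤ L → ∀ t : ℕ, 58 ≤ t → t ≤ 58 + R L → Cov L t := by
  intro L hL
  induction L, hL using Nat.le_induction with
  | base =>
    intro t h1 h2
    refine cov10 t h1 ?_
    have : R 10 = 5200220 := by decide
    omega
  | succ L hL ih =>
    intro t h1 h2
    rw [R_succ] at h2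
    rcases Nat.lt_or_ge (58 + R L) t with h | h
    · have hb := prime_bound L
      have hge := Nat.add_two_le_nth_prime L
      set p := Nat.nth Nat.Prime L with hp
      have hsq : (p ^ (1 + 1) - p) / 2 = p * (p - 1) / 2 := by
        congr 1
        rw [pow_succ, pow_one, Nat.mul_sub, mul_one]
      have hch : (L + 2).choose 2 ≤ p * (p - 1) / 2 := by
        rw [Nat.choose_two_right]
        exact Nat.div_le_div_right (Nat.mul_le_mul hge (by omega))
      have h3 : Cov L (t - (p ^ (1 + 1) - p) / 2) := by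
        apply ih
        · rw [hsq]; omega
        · rw [hsq]; omega
      have h4 := cov_add h3 1
      rw [← hp] at h4
      have h5 : t - (p ^ (1 + 1) - p) / 2 + (p ^ (1 + 1) - p) / 2 = t := by
        rw [hsq]; omega
      rwa [h5] at h4
    · exact cov_one (ih t h1 h)

theorem S_lt_succ (L : ℕ) : S L < S (L + 1) := by
  rw [S_succ]
  have := (Nat.prime_nth_prime L).pos
  omega

theorem S_mono : StrictMono S := strictMono_nat_of_lt_succ S_lt_succ

theorem S0 : S 0 = 0 := by simp [S]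
theorem S1 : S 1 = 2 := by rw [S_succ, S0, Nat.nth_prime_zero_eq_two]
theorem S2 : S 2 = 5 := by rw [S_succ, S1, Nat.nth_prime_one_eq_three]
theorem S3 : S 3 = 10 := by rw [S_succ, S2, Nat.nth_prime_two_eq_five]
theorem S4 : S 4 = 17 := by rw [S_succ, S3, Nat.nth_prime_three_eq_seven]
theorem S5 : S 5 = 28 := by rw [S_succ, S4, Nat.nth_prime_four_eq_eleven]
theorem S6 : S 6 = 41 := by rw [S_succ, S5, nth5]
theorem S7 : S 7 = 58 := by rw [S_succ, S6, nth6]
theorem S8 : S 8 = 77 := by rw [S_succ, S7, nth7]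
theorem S9 : S 9 = 100 := by rw [S_succ, S8, nth8]
theorem S10 : S 10 = 129 := by rw [S_succ, S9, nth9]
theorem S11 : S 11 = 160 := by rw [S_succ, S10, nth10]

/-- consecutive primes differ at most by a factor two -/
theorem nth_succ_le (L : ℕ) : Nat.nth Nat.Prime (L + 1) ≤ 2 * Nat.nth Nat.Prime L := by
  obtain ⟨q, hq, h1, h2⟩ := Nat.exists_prime_lt_and_le_two_mul (Nat.nth Nat.Prime L)
    (Nat.prime_nth_prime L).ne_zero
  have h3 : L + 1 ≤ Nat.count Nat.Prime q := by
    have h4 : Nat.count Nat.Prime (Nat.nth Nat.Prime L + 1) = L + 1 := pi_nth L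
    calc L + 1 = Nat.count Nat.Prime (Nat.nth Nat.Prime L + 1) := h4.symm
      _ ≤ Nat.count Nat.Prime q := Nat.count_monotone Nat.Prime h1
  have h5 : Nat.nth Nat.Prime (Nat.count Nat.Prime q) = q := Nat.nth_count hq
  calc Nat.nth Nat.Prime (L + 1) ≤ Nat.nth Nat.Prime (Nat.count Nat.Prime q) :=
        (Nat.nth_strictMono Nat.infinite_setOfPred_prime).monotone h3
    _ = q := h5
    _ ≤ _ := h2

theorem large (n : ℕ) (hn : 276 ≤ n) : Representable n := by
  have hex : ∃ L, n < S (L + 1) + 116 := by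
    refine ⟨n, ?_⟩
    have := S_mono.add_le_nat n 0
    have h2 := S_mono.add_le_nat n 1
    rw [S1] at h2
    have h3 : S (n + 1) = S (1 + n) := by rw [add_comm]
    omega
  classical
  obtain ⟨M, hM⟩ : ∃ M, Nat.find hex = M + 1 := by
    have hpos : Nat.find hex ≠ 0 := by
      intro h0
      have h1 := Nat.find_spec hex
      rw [h0, S1] at h1
      omega
    exact ⟨Nat.find hex - 1, by omega⟩
  have hA : n < S (M + 1 + 1) + 116 := by
    have := Nat.find_spec hex
    rwa [hM] at this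
  have hB : S (M + 1) + 116 ≤ n := by
    have := Nat.find_min hex (m := M) (by omega)
    omega
  have hM10 : 10 ≤ M := by
    by_contra hcon
    have : S (M + 1 + 1) ≤ S 11 := S_mono.monotone (by omega)
    rw [S11] at this
    omega
  have e1 := S_succ (M + 1)
  have e2 := S_succ M
  have hb1 := prime_bound (M + 1)
  have hb0 := prime_bound M
  have hge1 := Nat.add_two_le_nth_prime (M + 1)
  have hge0 := Nat.add_two_le_nth_prime M
  have hle := nth_succ_le M
  set p := Nat.nth Nat.Prime M with hp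
  set q := Nat.nth Nat.Prime (M + 1) with hq
  have hodd : p % 2 = 1 := by
    rcases (Nat.prime_nth_prime M).eq_two_or_odd with h | h
    · omega
    · exact h
  have hq3 : q ≤ R (M + 1) := by
    have h1 : 2 * q ≤ q * (q - 1) := by
      rw [mul_comm]; exact Nat.mul_le_mul_left _ (by omega)
    omega
  have hp3 : 2 * p ≤ R M := by
    have h1 : 4 * p ≤ p * (p - 1) := by
      rw [mul_comm]; exact Nat.mul_le_mul_left _ (by omega)
    omega
  rcases Nat.even_or_odd (n - S (M + 1)) with ⟨c, hc⟩ | ⟨c, hc⟩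
  · have h1 : Cov (M + 1) c := cov_run (M + 1) (by omega) c (by omega) (by omega)
    have h2 := cov_rep (by omega) h1
    have h3 : S (M + 1) + 2 * c = n := by omega
    rwa [h3] at h2
  · have h1 : Cov M ((n - S M) / 2) := cov_run M hM10 _ (by omega) (by omega)
    have h2 := cov_rep (by omega) h1
    have h3 : S M + 2 * ((n - S M) / 2) = n := by omega
    rwa [h3] at h2

/-! ### Small numbers -/

/-- a check that `n` is representable with the primes listed in `l`, whose sum is `s` -/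
def chk (s : ℕ) (l : List (ℕ × ℕ)) (n : ℕ) : Bool :=
  n % 2 == s % 2 && (Nat.ble s n && (mask 140 l).testBit ((n - s) / 2))

theorem small_aux : (List.range 242).all (fun i =>
    chk 2 l1 (i + 34) || (chk 5 l2 (i + 34) || (chk 10 l3 (i + 34) || (chk 17 l4 (i + 34) ||
    (chk 28 l5 (i + 34) || (chk 41 l6 (i + 34) || (chk 58 l7 (i + 34) || (chk 77 l8 (i + 34) ||
    (chk 100 l9 (i + 34) || chk 129 l10 (i + 34)))))))))) = true := by
  decide +kernel

theorem small_case (l : List (ℕ × ℕ)) (hg : Good l) (L s n : ℕ) (hl : l.length = L)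
    (hL : 1 ≤ L) (hs : S L = s) (h : chk s l n = true) : Representable n := by
  unfold chk at h
  rw [Bool.and_eq_true, Bool.and_eq_true, beq_iff_eq, Nat.ble_eq] at h
  have h1 := mask_sound 140 l hg _ h.2.2
  rw [hl] at h1
  have h2 := cov_rep hL h1
  rw [hs] at h2
  have h3 : s + 2 * ((n - s) / 2) = n := by omega
  rwa [h3] at h2

theorem small (n : ℕ) (h1 : 34 ≤ n) (h2 : n < 276) : Representable n := by
  have h := List.all_eq_true.1 small_aux (n - 34) (List.mem_range.2 (by omega))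
  have hn : n - 34 + 34 = n := by omega
  simp only [hn, Bool.or_eq_true] at h
  rcases h with h | h | h | h | h | h | h | h | h | h
  · exact small_case l1 good1 1 2 n rfl (by norm_num) S1 h
  · exact small_case l2 good2 2 5 n rfl (by norm_num) S2 h
  · exact small_case l3 good3 3 10 n rfl (by norm_num) S3 h
  · exact small_case l4 good4 4 17 n rfl (by norm_num) S4 h
  · exact small_case l5 good5 5 28 n rfl (by norm_num) S5 h
  · exact small_case l6 good6 6 41 n rfl (by norm_num) S6 h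
  · exact small_case l7 good7 7 58 n rfl (by norm_num) S7 h
  · exact small_case l8 good8 8 77 n rfl (by norm_num) S8 h
  · exact small_case l9 good9 9 100 n rfl (by norm_num) S9 h
  · exact small_case l10 good10 10 129 n rfl (by norm_num) S10 h

/-! ### The number `33` -/

theorem pow_bd {p a : ℕ} (m : ℕ) (h : p ^ a ≤ 33) (hm : 33 < p ^ (m + 1)) (hp : 1 ≤ p) :
    a ≤ m := by
  by_contra hcon
  have : p ^ (m + 1) ≤ p ^ a := Nat.pow_le_pow_right hp (by omega)
  omega

theorem not_rep : ¬ Representable 33 := by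
  rintro ⟨L, hL, α, hα, h⟩
  have hL5 : L ≤ 5 := by
    by_contra hcon
    have h1 : S 6 ≤ S L := S_mono.monotone (by omega)
    have h2 : S L ≤ ∑ j ∈ Finset.range L, (Nat.nth Nat.Prime j) ^ (α j) := by
      unfold S
      refine Finset.sum_le_sum fun j hj => ?_
      calc Nat.nth Nat.Prime j = (Nat.nth Nat.Prime j) ^ 1 := (pow_one _).symm
        _ ≤ (Nat.nth Nat.Prime j) ^ (α j) :=
          Nat.pow_le_pow_right (Nat.prime_nth_prime j).pos (hα j (Finset.mem_range.1 hj))
    rw [S6] at h1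
    omega
  have aux : ∀ a b c d e : ℕ, 1 ≤ a → 1 ≤ b → 1 ≤ c → 1 ≤ d → 1 ≤ e →
      a ≤ 5 → b ≤ 3 → c ≤ 2 → d ≤ 1 → e ≤ 1 →
      33 ≠ 2 ^ a ∧ 33 ≠ 2 ^ a + 3 ^ b ∧ 33 ≠ 2 ^ a + 3 ^ b + 5 ^ c ∧
      33 ≠ 2 ^ a + 3 ^ b + 5 ^ c + 7 ^ d ∧ 33 ≠ 2 ^ a + 3 ^ b + 5 ^ c + 7 ^ d + 11 ^ e := by
    intro a b c d e h1 h2 h3 h4 h5 h6 h7 h8 h9 h10
    interval_cases a <;> interval_cases b <;> interval_cases c <;> interval_cases d <;>
      interval_cases e <;> norm_num
  have hterm : ∀ j < L, (Nat.nth Nat.Prime j) ^ (α j) ≤ 33 := by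
    intro j hj
    rw [h]
    exact Finset.single_le_sum (f := fun j => (Nat.nth Nat.Prime j) ^ (α j))
      (fun i _ => Nat.zero_le _) (Finset.mem_range.2 hj)
  have k0 : 0 < L → 2 ^ (α 0) ≤ 33 := fun hj => by
    have := hterm 0 hj
    rwa [Nat.nth_prime_zero_eq_two] at this
  have k1 : 1 < L → 3 ^ (α 1) ≤ 33 := fun hj => by
    have := hterm 1 hj
    rwa [Nat.nth_prime_one_eq_three] at this
  have k2 : 2 < L → 5 ^ (α 2) ≤ 33 := fun hj => by
    have := hterm 2 hj
    rwa [Nat.nth_prime_two_eq_five] at this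
  have k3 : 3 < L → 7 ^ (α 3) ≤ 33 := fun hj => by
    have := hterm 3 hj
    rwa [Nat.nth_prime_three_eq_seven] at this
  have k4 : 4 < L → 11 ^ (α 4) ≤ 33 := fun hj => by
    have := hterm 4 hj
    rwa [Nat.nth_prime_four_eq_eleven] at this
  interval_cases L
  · simp only [Finset.sum_range_succ, Finset.sum_range_zero, zero_add,
      Nat.nth_prime_zero_eq_two] at h
    have b0 := pow_bd (p := 2) (a := α 0) 5 (k0 (by norm_num)) (by norm_num) (by norm_num)
    exact (aux (α 0) 1 1 1 1 (hα 0 (by norm_num)) le_rfl le_rfl le_rfl le_rfl b0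
      (by norm_num) (by norm_num) le_rfl le_rfl).1 h
  · simp only [Finset.sum_range_succ, Finset.sum_range_zero, zero_add,
      Nat.nth_prime_zero_eq_two, Nat.nth_prime_one_eq_three] at h
    have b0 := pow_bd (p := 2) (a := α 0) 5 (k0 (by norm_num)) (by norm_num) (by norm_num)
    have b1 := pow_bd (p := 3) (a := α 1) 3 (k1 (by norm_num)) (by norm_num) (by norm_num)
    exact (aux (α 0) (α 1) 1 1 1 (hα 0 (by norm_num)) (hα 1 (by norm_num)) le_rfl le_rfl le_rfl
      b0 b1 (by norm_num) le_rfl le_rfl).2.1 h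
  · simp only [Finset.sum_range_succ, Finset.sum_range_zero, zero_add,
      Nat.nth_prime_zero_eq_two, Nat.nth_prime_one_eq_three, Nat.nth_prime_two_eq_five] at h
    have b0 := pow_bd (p := 2) (a := α 0) 5 (k0 (by norm_num)) (by norm_num) (by norm_num)
    have b1 := pow_bd (p := 3) (a := α 1) 3 (k1 (by norm_num)) (by norm_num) (by norm_num)
    have b2 := pow_bd (p := 5) (a := α 2) 2 (k2 (by norm_num)) (by norm_num) (by norm_num)
    exact (aux (α 0) (α 1) (α 2) 1 1 (hα 0 (by norm_num)) (hα 1 (by norm_num))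
      (hα 2 (by norm_num)) le_rfl le_rfl b0 b1 b2 le_rfl le_rfl).2.2.1 h
  · simp only [Finset.sum_range_succ, Finset.sum_range_zero, zero_add,
      Nat.nth_prime_zero_eq_two, Nat.nth_prime_one_eq_three, Nat.nth_prime_two_eq_five,
      Nat.nth_prime_three_eq_seven] at h
    have b0 := pow_bd (p := 2) (a := α 0) 5 (k0 (by norm_num)) (by norm_num) (by norm_num)
    have b1 := pow_bd (p := 3) (a := α 1) 3 (k1 (by norm_num)) (by norm_num) (by norm_num)
    have b2 := pow_bd (p := 5) (a := α 2) 2 (k2 (by norm_num)) (by norm_num) (by norm_num)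
    have b3 := pow_bd (p := 7) (a := α 3) 1 (k3 (by norm_num)) (by norm_num) (by norm_num)
    exact (aux (α 0) (α 1) (α 2) (α 3) 1 (hα 0 (by norm_num)) (hα 1 (by norm_num))
      (hα 2 (by norm_num)) (hα 3 (by norm_num)) le_rfl b0 b1 b2 b3 le_rfl).2.2.2.1 h
  · simp only [Finset.sum_range_succ, Finset.sum_range_zero, zero_add,
      Nat.nth_prime_zero_eq_two, Nat.nth_prime_one_eq_three, Nat.nth_prime_two_eq_five,
      Nat.nth_prime_three_eq_seven, Nat.nth_prime_four_eq_eleven] at h
    have b0 := pow_bd (p := 2) (a := α 0) 5 (k0 (by norm_num)) (by norm_num) (by norm_num)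
    have b1 := pow_bd (p := 3) (a := α 1) 3 (k1 (by norm_num)) (by norm_num) (by norm_num)
    have b2 := pow_bd (p := 5) (a := α 2) 2 (k2 (by norm_num)) (by norm_num) (by norm_num)
    have b3 := pow_bd (p := 7) (a := α 3) 1 (k3 (by norm_num)) (by norm_num) (by norm_num)
    have b4 := pow_bd (p := 11) (a := α 4) 1 (k4 (by norm_num)) (by norm_num) (by norm_num)
    exact (aux (α 0) (α 1) (α 2) (α 3) (α 4) (hα 0 (by norm_num)) (hα 1 (by norm_num))
      (hα 2 (by norm_num)) (hα 3 (by norm_num)) (hα 4 (by norm_num)) b0 b1 b2 b3 b4).2.2.2.2 h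

/-- The number `33` is the largest positive integer that is not a sum
`2 ^ α_1 + 3 ^ α_2 + ⋯ + p_L ^ α_L` of positive powers of the first `L` primes, `L ≥ 1`. -/
theorem result : ¬ Representable 33 ∧ ∀ n : ℕ, 34 ≤ n → Representable n := by
  refine ⟨not_rep, fun n hn => ?_⟩
  rcases Nat.lt_or_ge n 276 with h | h
  · exact small n hn h
  · exact large n h

end Pool.Agent.Results.MP_9f71e8_nt.LargestNonRepresentable
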